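import Mathlib

set_option autoImplicit false
open MeasureTheory Set Filter Topology Metric
open scoped ENNReal NNReal ContDiff

namespace Pool.Agent.Results.MP_e338b6_an.PlansThreeDim

/-- The Euclidean plane. -/
abbrev E := EuclideanSpace ℝ (Fin 2)

/-- `π` is a coupling (transport plan) of `μ` and `ν`. -/
def IsCoupling (μ ν : Measure E) (π : Measure (E × E)) : Prop :=
  π.map Prod.fst = μ ∧ π.map Prod.snd = ν

/-- `π` is an optimal coupling of `μ` and `ν` for the cost `|x - y|`. -/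
def IsOptimal (μ ν : Measure E) (π : Measure (E × E)) : Prop :=
  IsCoupling μ ν π ∧ ∀ π' : Measure (E × E), IsCoupling μ ν π' →
    ∫⁻ p, edist p.1 p.2 ∂π ≤ ∫⁻ p, edist p.1 p.2 ∂π'

/-! ### smooth sums -/

theorem exists_bound (G : E → ℝ) (hG : ContDiff ℝ ∞ G) (hc : HasCompactSupport G) (n : ℕ) :
    ∃ R : ℝ, 1 ≤ R ∧ ∀ i ≤ n, ∀ x, ‖iteratedFDeriv ℝ i G x‖ ≤ R := by
  have h1 : ∀ i : ℕ, ∃ R : ℝ, ∀ x, ‖iteratedFDeriv ℝ i G x‖ ≤ R := by
    intro i
    have : BddAbove (range fun x => ‖iteratedFDeriv ℝ i G x‖) := by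
      apply (hG.continuous_iteratedFDeriv (mod_cast le_top)).norm.bddAbove_range_of_hasCompactSupport
      apply HasCompactSupport.comp_left _ norm_zero
      exact hc.iteratedFDeriv i
    obtain ⟨R, hR⟩ := this
    exact ⟨R, fun x => hR (mem_range_self _)⟩
  choose R hR using h1
  refine ⟨1 + ∑ i ∈ Finset.range (n + 1), |R i|, ?_, ?_⟩
  · have : 0 ≤ ∑ i ∈ Finset.range (n + 1), |R i| := Finset.sum_nonneg fun _ _ => abs_nonneg _
    linarith
  · intro i hi x
    have h2 : |R i| ≤ ∑ i ∈ Finset.range (n + 1), |R i| :=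
      Finset.single_le_sum (f := fun i => |R i|) (fun _ _ => abs_nonneg _)
        (Finset.mem_range.2 (by omega))
    have := hR i x
    have := le_abs_self (R i)
    linarith

theorem contDiff_sum (G : ℕ → E → ℝ) (hG : ∀ n, ContDiff ℝ ∞ (G n)) (R c : ℕ → ℝ)
    (hc : ∀ n, 0 < c n) (hcR : ∀ n, c n * R n ≤ (1 / 2 : ℝ) ^ n)
    (hR : ∀ n, ∀ i ≤ n, ∀ x, ‖iteratedFDeriv ℝ i (G n) x‖ ≤ R n) :
    ContDiff ℝ ∞ (fun x => ∑' n, c n * G n x) := by
  have h0 : ∀ n, ContDiff ℝ ∞ (fun x => c n * G n x) := fun n => contDiff_const.mul (hG n)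
  refine contDiff_tsum_of_eventually (N := ⊤) (v := fun _ n => (1 / 2 : ℝ) ^ n) h0
    (fun k _ => summable_geometric_two) ?_
  intro k _
  rw [Nat.cofinite_eq_atTop]
  filter_upwards [eventually_ge_atTop k] with n hn x
  have h1 : iteratedFDeriv ℝ k (fun x => c n * G n x) x = c n • iteratedFDeriv ℝ k (G n) x := by
    have := iteratedFDeriv_const_smul_apply (𝕜 := ℝ) (i := k) (a := c n) (f := G n) (x := x)
      ((hG n).of_le (mod_cast le_top)).contDiffAt
    exact this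
  rw [h1, norm_smul, Real.norm_of_nonneg (hc n).le]
  calc c n * ‖iteratedFDeriv ℝ k (G n) x‖ ≤ c n * R n :=
        mul_le_mul_of_nonneg_left (hR n k hn x) (hc n).le
    _ ≤ _ := hcR n

/-! ### the height function -/

theorem exists_h : ∃ h : ℝ → ℝ, ContDiff ℝ ∞ h ∧ (∀ y, 0 ≤ h y) ∧
    (∀ y, y ∉ Ioo (0 : ℝ) 1 → h y = 0) ∧ 0 < volume {y | y ∈ Ioo (0 : ℝ) 1 ∧ h y = 0} ∧
    (∀ y ∈ Ioo (0 : ℝ) 1, ∀ ε > 0, ∃ y', |y' - y| < ε ∧ 0 < h y') := by
  obtain ⟨V, hVsub, hVo, hVm⟩ := Set.exists_isOpen_lt_of_lt (μ := volume)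
    (range ((↑) : ℚ → ℝ)) (1 / 2) (by
      rw [(countable_range _).measure_zero]; norm_num)
  have hUo : IsOpen (V ∩ Ioo (0 : ℝ) 1) := hVo.inter isOpen_Ioo
  obtain ⟨h, hs, hd, hr⟩ := IsOpen.exists_contDiff_support_eq (n := ⊤) hUo
  have hnn : ∀ y, 0 ≤ h y := fun y => (hr (mem_range_self y)).1
  refine ⟨h, hd, hnn, ?_, ?_, ?_⟩
  · intro y hy
    by_contra h0
    have : y ∈ Function.support h := h0
    rw [hs] at this
    exact hy this.2
  · have hsub : Ioo (0 : ℝ) 1 ⊆ V ∪ {y | y ∈ Ioo (0 : ℝ) 1 ∧ h y = 0} := by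
      intro y hy
      by_cases hyV : y ∈ V
      · exact Or.inl hyV
      · refine Or.inr ⟨hy, ?_⟩
        by_contra h0
        have : y ∈ Function.support h := h0
        rw [hs] at this
        exact hyV this.1
    have h1 := measure_mono (μ := volume) hsub
    rw [Real.volume_Ioo] at h1
    have h2 := h1.trans (measure_union_le _ _)
    by_contra h3
    have h4 : volume {y | y ∈ Ioo (0 : ℝ) 1 ∧ h y = 0} = 0 := not_lt.1 h3 |>.antisymm zero_le
    rw [h4, add_zero] at h2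
    have h5 := h2.trans_lt hVm
    have h6 : ENNReal.ofReal (1 - 0) = 1 := by simp
    rw [h6] at h5
    have h7 : (1 / 2 : ℝ≥0∞) < 1 := ENNReal.half_lt_self (a := 1) (by simp) (by simp)
    exact absurd (h5.trans h7) (lt_irrefl _)
  · intro y hy ε hε
    obtain ⟨q, hq1, hq2⟩ := exists_rat_btwn
      (max_lt (by linarith) hy.1 : max (y - ε) 0 < y)
    have h1 : y - ε < q := (le_max_left _ _).trans_lt hq1
    have h2 : 0 < (q : ℝ) := (le_max_right _ _).trans_lt hq1
    refine ⟨q, ?_, ?_⟩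
    · rw [abs_lt]
      constructor <;> linarith
    · have : (q : ℝ) ∈ Function.support h := by
        rw [hs]
        exact ⟨hVsub (mem_range_self q), h2, by linarith [hy.2]⟩
      exact lt_of_le_of_ne (hnn _) (Ne.symm this)

/-! ### labels -/

/-- clamping to `[0,1]` -/
noncomputable def clamp (x : ℝ) : ℝ := max 0 (min 1 x)

theorem clamp_mem (x : ℝ) : 0 ≤ clamp x ∧ clamp x ≤ 1 :=
  ⟨le_max_left _ _, max_le (by norm_num) (min_le_left _ _)⟩

theorem clamp_close (x s ε : ℝ) (hs : s ∈ Icc (0 : ℝ) 1) (h : |x - s| < ε) :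
    |clamp x - s| < ε := by
  unfold clamp
  rw [abs_lt] at *
  obtain ⟨h0, h1⟩ := hs
  rcases le_total 1 x with hx | hx
  · rw [min_eq_left hx, max_eq_right (by norm_num)]
    constructor <;> linarith
  · rw [min_eq_right hx]
    rcases le_total 0 x with hx' | hx'
    · rw [max_eq_right hx']
      exact h
    · rw [max_eq_left hx']
      constructor <;> linarith

theorem exists_labels : ∃ a b : ℕ → ℝ, (∀ k, 0 ≤ a k ∧ a k ≤ 1) ∧ (∀ k, 2 ≤ b k ∧ b k ≤ 3) ∧
    ∀ s ∈ Icc (0 : ℝ) 1, ∀ t ∈ Icc (2 : ℝ) 3, ∀ ε > 0, ∀ N : ℕ, ∃ k ≥ N,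
      |a k - s| < ε ∧ |b k - t| < ε := by
  obtain ⟨q, hq⟩ := TopologicalSpace.exists_dense_seq ℝ
  have hq' : ∀ s : ℝ, ∀ ε > 0, ∃ i, |q i - s| < ε := by
    intro s ε hε
    obtain ⟨i, hy⟩ := hq.exists_dist_lt s hε
    exact ⟨i, by rw [abs_sub_comm]; exact hy⟩
  refine ⟨fun k => clamp (q (Nat.unpair (Nat.unpair k).1).1),
    fun k => 2 + clamp (q (Nat.unpair (Nat.unpair k).1).2), fun k => clamp_mem _, fun k => ?_, ?_⟩
  · have := clamp_mem (q (Nat.unpair (Nat.unpair k).1).2)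
    constructor <;> linarith
  · intro s hs t ht ε hε N
    obtain ⟨i, hi⟩ := hq' s ε hε
    obtain ⟨j, hj⟩ := hq' (t - 2) ε hε
    refine ⟨Nat.pair (Nat.pair i j) N, Nat.right_le_pair _ _, ?_, ?_⟩
    · simp only [Nat.unpair_pair]
      exact clamp_close _ _ _ hs hi
    · simp only [Nat.unpair_pair]
      have := clamp_close _ _ _ (⟨by linarith [ht.1], by linarith [ht.2]⟩ :
        t - 2 ∈ Icc (0 : ℝ) 1) hj
      rw [show 2 + clamp (q j) - t = clamp (q j) - (t - 2) by ring]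
      exact this


/-! ### the construction -/

/-- shift in the horizontal direction as a function of the height -/
noncomputable def D (a b : ℕ → ℝ) (τ : ℝ) : ℝ := b (⌊1 / τ⌋₊ - 1) - a (⌊1 / τ⌋₊ - 1)

/-- height slots -/
def I (k : ℕ) : Set ℝ := Ioo (1 / ((k : ℝ) + 2)) (1 / ((k : ℝ) + 1))

theorem measurable_D (a b : ℕ → ℝ) : Measurable (D a b) := by
  have h : Measurable fun τ : ℝ => ⌊1 / τ⌋₊ - 1 :=
    (measurable_from_nat (f := fun n : ℕ => n - 1)).comp
      (Nat.measurable_floor.comp (measurable_const.div measurable_id))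
  exact ((measurable_from_nat (f := b)).comp h).sub ((measurable_from_nat (f := a)).comp h)

theorem D_eq (a b : ℕ → ℝ) {k : ℕ} {τ : ℝ} (h : τ ∈ I k) : D a b τ = b k - a k := by
  obtain ⟨h1, h2⟩ := h
  have hk : (0 : ℝ) < (k : ℝ) + 1 := by positivity
  have hk2 : (0 : ℝ) < (k : ℝ) + 2 := by positivity
  have hτ : 0 < τ := lt_trans (by positivity) h1
  have h3 : ⌊1 / τ⌋₊ = k + 1 := by
    rw [Nat.floor_eq_iff (by positivity)]
    push_cast
    constructor
    · rw [le_div_iff₀ hτ]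
      rw [lt_div_iff₀ hk] at h2
      linarith
    · rw [div_lt_iff₀ hτ]
      rw [div_lt_iff₀ hk2] at h1
      linarith
  unfold D
  rw [h3]
  rfl

theorem I_disj {k l : ℕ} {τ : ℝ} (h : τ ∈ I k) (h' : τ ∈ I l) : k = l := by
  have h3 : ∀ k : ℕ, τ ∈ I k → ⌊1 / τ⌋₊ = k + 1 := by
    intro k h
    obtain ⟨h1, h2⟩ := h
    have hk : (0 : ℝ) < (k : ℝ) + 1 := by positivity
    have hk2 : (0 : ℝ) < (k : ℝ) + 2 := by positivity
    have hτ : 0 < τ := lt_trans (by positivity) h1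
    rw [Nat.floor_eq_iff (by positivity)]
    push_cast
    constructor
    · rw [le_div_iff₀ hτ]
      rw [lt_div_iff₀ hk] at h2
      linarith
    · rw [div_lt_iff₀ hτ]
      rw [div_lt_iff₀ hk2] at h1
      linarith
  have := h3 k h
  have := h3 l h'
  omega

/-- the shear -/
noncomputable def T (d : ℝ → ℝ) (x : E) : E := !₂[x 0 + d (x 1), x 1]

theorem T_zero (d : ℝ → ℝ) (x : E) : T d x 0 = x 0 + d (x 1) := rfl
theorem T_one (d : ℝ → ℝ) (x : E) : T d x 1 = x 1 := rfl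

theorem measurePreserving_T (d : ℝ → ℝ) (hd : Measurable d) :
    MeasurePreserving (T d) volume volume := by
  have e1 : MeasurePreserving (fun x : E => (x : Fin 2 → ℝ)) volume volume :=
    PiLp.volume_preserving_ofLp (Fin 2)
  have e2 := volume_preserving_finTwoArrow ℝ
  have e3 : MeasurePreserving (Prod.swap : ℝ × ℝ → ℝ × ℝ) volume volume :=
    Measure.measurePreserving_swap
  have e4 : MeasurePreserving (fun p : ℝ × ℝ => (p.1, p.2 + d p.1)) volume volume := by
    have := (MeasurePreserving.id (volume : Measure ℝ)).skew_product (μc := (volume : Measure ℝ))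
      (μd := (volume : Measure ℝ)) (g := fun y s => s + d y)
      (by
        show Measurable fun p : ℝ × ℝ => p.2 + d p.1
        exact measurable_snd.add (hd.comp measurable_fst))
      (ae_of_all _ fun y => map_add_right_eq_self _ _)
    exact this
  have e5 := (volume_preserving_finTwoArrow ℝ).symm
  have e6 : MeasurePreserving (fun x : Fin 2 → ℝ => (WithLp.toLp 2 x : E)) volume volume :=
    PiLp.volume_preserving_toLp (Fin 2)
  have := e6.comp (e5.comp (e3.comp (e4.comp (e3.comp (e2.comp e1)))))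
  convert this using 1
  funext x
  ext i
  fin_cases i <;> rfl

theorem continuous_coord (i : Fin 2) : Continuous fun x : E => x i :=
  (EuclideanSpace.proj i : E →L[ℝ] ℝ).continuous

theorem contDiff_coord (i : Fin 2) : ContDiff ℝ ∞ fun x : E => x i :=
  (EuclideanSpace.proj i : E →L[ℝ] ℝ).contDiff

theorem norm_le_five (x : E) (h0 : |x 0| ≤ 4) (h1 : |x 1| ≤ 1) : ‖x‖ ≤ 5 := by
  rw [EuclideanSpace.norm_eq, Fin.sum_univ_two]
  apply Real.sqrt_le_iff.2
  refine ⟨by norm_num, ?_⟩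
  simp only [Real.norm_eq_abs]
  nlinarith [abs_nonneg (x 0), abs_nonneg (x 1)]

/-- all that is needed of the two densities -/
structure Data where
  h : ℝ → ℝ
  h_cont : Continuous h
  h_K : 0 < volume {y | y ∈ Ioo (0 : ℝ) 1 ∧ h y = 0}
  h_near : ∀ y ∈ Ioo (0 : ℝ) 1, ∀ ε > 0, ∃ y', |y' - y| < ε ∧ 0 < h y'
  a : ℕ → ℝ
  b : ℕ → ℝ
  a_mem : ∀ k, 0 ≤ a k ∧ a k ≤ 1
  b_mem : ∀ k, 2 ≤ b k ∧ b k ≤ 3
  lab : ∀ s ∈ Icc (0 : ℝ) 1, ∀ t ∈ Icc (2 : ℝ) 3, ∀ ε > 0, ∀ N : ℕ, ∃ k ≥ N,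
      |a k - s| < ε ∧ |b k - t| < ε
  f : E → ℝ
  g : E → ℝ
  f_smooth : ContDiff ℝ ∞ f
  g_smooth : ContDiff ℝ ∞ g
  f_nonneg : ∀ x, 0 ≤ f x
  g_nonneg : ∀ x, 0 ≤ g x
  f_supp : ∀ x, f x ≠ 0 → ‖x‖ ≤ 5
  g_supp : ∀ x, g x ≠ 0 → ‖x‖ ≤ 5
  f_int : ∫ x, f x = 1
  g_int : ∫ x, g x = 1
  f_slot : ∀ k x, h (x 1) ∈ I k → (f x ≠ 0 ↔ |x 0 - a k| < 1 / ((k : ℝ) + 1))
  g_slot : ∀ k x, h (x 1) ∈ I k → (g x ≠ 0 ↔ |x 0 - b k| < 1 / ((k : ℝ) + 1))
  shear : ∀ x, f x = g (T (fun y => D a b (h y)) x)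

theorem exists_data : Nonempty Data := by
  obtain ⟨h, h1, h2, h3, h4, h5⟩ := exists_h
  obtain ⟨a, b, ha, hb, hab⟩ := exists_labels
  have hρ : ∀ k : ℕ, ∃ ρ : ℝ → ℝ, Function.support ρ = I k ∧ ContDiff ℝ ∞ ρ ∧
      range ρ ⊆ Icc 0 1 := fun k => IsOpen.exists_contDiff_support_eq (n := ⊤) isOpen_Ioo
  choose ρ hρs hρd hρr using hρ
  have hψ : ∀ k : ℕ, ∃ ψ : ℝ → ℝ,
      Function.support ψ = Ioo (-(1 / ((k : ℝ) + 1))) (1 / ((k : ℝ) + 1)) ∧ ContDiff ℝ ∞ ψ ∧
      range ψ ⊆ Icc 0 1 := fun k => IsOpen.exists_contDiff_support_eq (n := ⊤) isOpen_Ioo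
  choose ψ hψs hψd hψr using hψ
  have hw : ∀ k : ℕ, 1 / ((k : ℝ) + 1) ≤ 1 := by
    intro k
    rw [div_le_one (by positivity)]
    have : (0 : ℝ) ≤ k := Nat.cast_nonneg k
    linarith
  have hρ0 : ∀ k τ, ρ k τ ≠ 0 ↔ τ ∈ I k := by
    intro k τ
    rw [← hρs k]; rfl
  have hψ0 : ∀ k s, ψ k s ≠ 0 ↔ |s| < 1 / ((k : ℝ) + 1) := by
    intro k s
    rw [abs_lt, ← mem_Ioo, ← hψs k]; rfl
  have hρn : ∀ k τ, 0 ≤ ρ k τ := fun k τ => (hρr k (mem_range_self τ)).1
  have hψn : ∀ k s, 0 ≤ ψ k s := fun k s => (hψr k (mem_range_self s)).1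
  have h30 : ∀ k, h (0 : ℝ) ∉ I k := by
    intro k hk
    have h0 : h 0 = 0 := h3 0 (by simp)
    rw [h0] at hk
    have : (0 : ℝ) < 1 / ((k : ℝ) + 2) := by positivity
    exact absurd hk.1 (not_lt.2 this.le)
  -- the general family
  have key : ∀ l : ℕ → ℝ, (∀ k, 0 ≤ l k ∧ l k ≤ 3) →
      (∀ k, ContDiff ℝ ∞ fun x : E => ρ k (h (x 1)) * ψ k (x 0 - l k)) ∧
      (∀ k (x : E), ρ k (h (x 1)) * ψ k (x 0 - l k) ≠ 0 → ‖x‖ ≤ 5) := by
    intro l hl
    constructor
    · intro k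
      exact ((hρd k).comp (h1.comp (contDiff_coord 1))).mul
        ((hψd k).comp ((contDiff_coord 0).sub contDiff_const))
    · intro k x hx
      have hx1 := (hρ0 k _).1 (left_ne_zero_of_mul hx)
      have hx2 := (hψ0 k _).1 (right_ne_zero_of_mul hx)
      apply norm_le_five
      · have := hw k
        rw [abs_lt] at hx2
        rw [abs_le]
        constructor <;> linarith [(hl k).1, (hl k).2]
      · have : x 1 ∈ Ioo (0 : ℝ) 1 := by
          by_contra hc
          have h0 := h3 _ hc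
          rw [h0] at hx1
          have : (0 : ℝ) < 1 / ((k : ℝ) + 2) := by positivity
          exact absurd hx1.1 (not_lt.2 this.le)
        rw [abs_le]
        constructor <;> linarith [this.1, this.2]
  have ha3 : ∀ k, 0 ≤ a k ∧ a k ≤ 3 := fun k => ⟨(ha k).1, by linarith [(ha k).2]⟩
  have hb3 : ∀ k, 0 ≤ b k ∧ b k ≤ 3 := fun k => ⟨by linarith [(hb k).1], (hb k).2⟩
  obtain ⟨sa, ca⟩ := key a ha3
  obtain ⟨sb, cb⟩ := key b hb3
  have hcs : ∀ u : E → ℝ, (∀ x, u x ≠ 0 → ‖x‖ ≤ 5) → HasCompactSupport u := by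
    intro u hu
    refine HasCompactSupport.of_support_subset_isCompact (isCompact_closedBall (0 : E) 5) ?_
    intro x hx
    rw [mem_closedBall_zero_iff]
    exact hu x hx
  choose Ra hRa1 hRa using fun k => exists_bound _ (sa k) (hcs _ (ca k)) k
  choose Rb hRb1 hRb using fun k => exists_bound _ (sb k) (hcs _ (cb k)) k
  set c : ℕ → ℝ := fun k => (1 / 2 : ℝ) ^ k / (Ra k + Rb k) with hc
  have hRpos : ∀ k, 0 < Ra k + Rb k := fun k => by linarith [hRa1 k, hRb1 k]
  have hcpos : ∀ k, 0 < c k := fun k => div_pos (by positivity) (hRpos k)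
  have hcRa : ∀ k, c k * Ra k ≤ (1 / 2 : ℝ) ^ k := by
    intro k
    rw [hc]
    show (1 / 2 : ℝ) ^ k / (Ra k + Rb k) * Ra k ≤ _
    rw [div_mul_eq_mul_div, div_le_iff₀ (hRpos k)]
    have : (0 : ℝ) < (1 / 2 : ℝ) ^ k := by positivity
    nlinarith [hRb1 k]
  have hcRb : ∀ k, c k * Rb k ≤ (1 / 2 : ℝ) ^ k := by
    intro k
    rw [hc]
    show (1 / 2 : ℝ) ^ k / (Ra k + Rb k) * Rb k ≤ _
    rw [div_mul_eq_mul_div, div_le_iff₀ (hRpos k)]
    have : (0 : ℝ) < (1 / 2 : ℝ) ^ k := by positivity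
    nlinarith [hRa1 k]
  -- un-normalised densities
  set S : (ℕ → ℝ) → E → ℝ := fun l x => ∑' k, c k * (ρ k (h (x 1)) * ψ k (x 0 - l k)) with hS
  have Sa : ContDiff ℝ ∞ (S a) := contDiff_sum _ sa Ra c hcpos hcRa hRa
  have Sb : ContDiff ℝ ∞ (S b) := contDiff_sum _ sb Rb c hcpos hcRb hRb
  have Snn : ∀ l x, 0 ≤ S l x := fun l x => tsum_nonneg fun k =>
    mul_nonneg (hcpos k).le (mul_nonneg (hρn _ _) (hψn _ _))
  have Ssupp : ∀ l x, S l x ≠ 0 → ∃ k, ρ k (h (x 1)) * ψ k (x 0 - l k) ≠ 0 := by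
    intro l x hx
    by_contra hne
    push Not at hne
    apply hx
    rw [hS]
    show ∑' k, c k * (ρ k (h (x 1)) * ψ k (x 0 - l k)) = 0
    simp [hne]
  have Sslot : ∀ l k x, h (x 1) ∈ I k → S l x = c k * (ρ k (h (x 1)) * ψ k (x 0 - l k)) := by
    intro l k x hx
    refine tsum_eq_single k ?_
    intro j hj
    have : ρ j (h (x 1)) = 0 := by
      by_contra hne
      exact hj (I_disj ((hρ0 j _).1 hne) hx)
    rw [this]; ring
  have Sslot' : ∀ l k x, h (x 1) ∈ I k → (S l x ≠ 0 ↔ |x 0 - l k| < 1 / ((k : ℝ) + 1)) := by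
    intro l k x hx
    rw [Sslot l k x hx, ← hψ0]
    have h1 := (hρ0 k _).2 hx
    have h2 := (hcpos k).ne'
    constructor
    · intro h3 h4
      exact h3 (by rw [h4]; ring)
    · intro h3
      exact mul_ne_zero h2 (mul_ne_zero h1 h3)
  have Sshear : ∀ x, S a x = S b (T (fun y => D a b (h y)) x) := by
    intro x
    rw [hS]
    show ∑' k, c k * (ρ k (h (x 1)) * ψ k (x 0 - a k)) =
      ∑' k, c k * (ρ k (h (T _ x 1)) * ψ k (T _ x 0 - b k))
    congr 1
    funext k
    rw [T_one, T_zero]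
    by_cases hk : h (x 1) ∈ I k
    · rw [D_eq a b hk]
      congr 3
      ring
    · have : ρ k (h (x 1)) = 0 := by
        by_contra hne
        exact hk ((hρ0 k _).1 hne)
      rw [this]; ring
  have dm : Measurable fun y => D a b (h y) := (measurable_D a b).comp h1.continuous.measurable
  have hT := measurePreserving_T _ dm
  -- integral
  have hsuppa : ∀ x, S a x ≠ 0 → ‖x‖ ≤ 5 := fun x hx => by
    obtain ⟨k, hk⟩ := Ssupp a x hx
    exact ca k x hk
  have hsuppb : ∀ x, S b x ≠ 0 → ‖x‖ ≤ 5 := fun x hx => by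
    obtain ⟨k, hk⟩ := Ssupp b x hx
    exact cb k x hk
  have hia : Integrable (S a) := Sa.continuous.integrable_of_hasCompactSupport (hcs _ hsuppa)
  have hint : ∫ x, S b x = ∫ x, S a x := by
    have h1 : ∫ x, S b x = ∫ x, S b x ∂(Measure.map (T fun y => D a b (h y)) volume) := by
      rw [hT.map_eq]
    rw [h1, integral_map hT.aemeasurable Sb.continuous.aestronglyMeasurable]
    exact integral_congr_ae (ae_of_all _ fun x => (Sshear x).symm)
  -- a point where the density is positive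
  obtain ⟨y, hy⟩ : ∃ y, h y ∈ I 0 ∪ I 0 ∨ ∃ k, h y ∈ I k := by
    obtain ⟨y', -, hy'⟩ := h5 (1 / 2) (by norm_num) 1 (by norm_num)
    -- values near zero are taken
    obtain ⟨n, hn⟩ := exists_nat_one_div_lt hy'
    have hm : (1 / ((n : ℝ) + 2) + 1 / ((n : ℝ) + 1)) / 2 ∈ Icc (h 0) (h y') := by
      have h0 : h 0 = 0 := h3 0 (by simp)
      rw [h0]
      have h2 : 1 / ((n : ℝ) + 2) < 1 / ((n : ℝ) + 1) :=
        one_div_lt_one_div_of_lt (by positivity) (by linarith)
      constructor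
      · positivity
      · linarith
    obtain ⟨y, hy⟩ := mem_range_of_exists_le_of_exists_ge h1.continuous ⟨0, hm.1⟩ ⟨y', hm.2⟩
    refine ⟨y, Or.inr ⟨n, ?_⟩⟩
    rw [hy]
    have h2 : 1 / ((n : ℝ) + 2) < 1 / ((n : ℝ) + 1) :=
      one_div_lt_one_div_of_lt (by positivity) (by linarith)
    constructor <;> linarith
  obtain ⟨k, hk⟩ : ∃ k, h y ∈ I k := by
    rcases hy with hy | hy
    · exact ⟨0, by simpa using hy⟩
    · exact hy
  have hpos : 0 < ∫ x, S a x := by
    rw [integral_pos_iff_support_of_nonneg (Snn a) hia]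
    apply IsOpen.measure_pos _ Sa.continuous.isOpen_support
    refine ⟨!₂[a k, y], ?_⟩
    have : h ((!₂[a k, y] : E) 1) ∈ I k := hk
    show S a _ ≠ 0
    rw [Sslot' a k _ this]
    show |a k - a k| < _
    rw [sub_self, abs_zero]
    positivity
  set M := ∫ x, S a x with hM
  refine ⟨{
    h := h
    h_cont := h1.continuous
    h_K := h4
    h_near := h5
    a := a
    b := b
    a_mem := ha
    b_mem := hb
    lab := hab
    f := fun x => M⁻¹ * S a x
    g := fun x => M⁻¹ * S b x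
    f_smooth := contDiff_const.mul Sa
    g_smooth := contDiff_const.mul Sb
    f_nonneg := fun x => mul_nonneg (inv_nonneg.2 hpos.le) (Snn a x)
    g_nonneg := fun x => mul_nonneg (inv_nonneg.2 hpos.le) (Snn b x)
    f_supp := fun x hx => hsuppa x (right_ne_zero_of_mul hx)
    g_supp := fun x hx => hsuppb x (right_ne_zero_of_mul hx)
    f_int := by
      rw [integral_const_mul, ← hM, inv_mul_cancel₀ hpos.ne']
    g_int := by
      rw [integral_const_mul, hint, inv_mul_cancel₀ hpos.ne']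
    f_slot := ?_
    g_slot := ?_
    shear := ?_ }⟩
  · intro k x hx
    rw [← Sslot' a k x hx]
    simp [hpos.ne']
  · intro k x hx
    rw [← Sslot' b k x hx]
    simp [hpos.ne']
  · intro x
    show M⁻¹ * S a x = M⁻¹ * S b _
    rw [Sshear x]

/-- the measure with density `f` -/
noncomputable def dens (f : E → ℝ) : Measure E :=
  (volume : Measure E).withDensity fun x => ENNReal.ofReal (f x)

theorem dens_univ (f : E → ℝ) (h0 : ∀ x, 0 ≤ f x) (h1 : ∫ x, f x = 1) :
    dens f Set.univ = 1 := by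
  have hi : Integrable f := by
    by_contra hc
    rw [integral_undef hc] at h1
    norm_num at h1
  unfold dens
  rw [withDensity_apply _ MeasurableSet.univ, Measure.restrict_univ,
    ← ofReal_integral_eq_lintegral_ofReal hi (ae_of_all _ h0), h1, ENNReal.ofReal_one]

theorem dens_ae (f : E → ℝ) (hf : Continuous f) (h0 : ∀ x, 0 ≤ f x) : ∀ᵐ x ∂dens f, f x ≠ 0 := by
  unfold dens
  have hm : Measurable fun x => ENNReal.ofReal (f x) := ENNReal.measurable_ofReal.comp hf.measurable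
  rw [ae_withDensity_iff hm]
  refine ae_of_all _ fun x hx => ?_
  intro h
  rw [h, ENNReal.ofReal_zero] at hx
  exact hx rfl

theorem dens_pos (f : E → ℝ) (hf : Continuous f) (h0 : ∀ x, 0 ≤ f x) (O : Set E) (hO : IsOpen O)
    (x : E) (hx : x ∈ O) (hfx : f x ≠ 0) : 0 < dens f O := by
  unfold dens
  have hm : Measurable fun x => ENNReal.ofReal (f x) := ENNReal.measurable_ofReal.comp hf.measurable
  rw [withDensity_apply _ hO.measurableSet, setLIntegral_pos_iff hm]
  have : IsOpen ({x | f x ≠ 0} ∩ O) := hf.isOpen_support.inter hO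
  refine lt_of_lt_of_le (this.measure_pos volume ⟨x, hfx, hx⟩) (measure_mono ?_)
  rintro z ⟨hz1, hz2⟩
  refine ⟨?_, hz2⟩
  show ENNReal.ofReal (f z) ≠ 0
  rw [Ne, ENNReal.ofReal_eq_zero, not_le]
  exact lt_of_le_of_ne (h0 z) (Ne.symm hz1)

section coupling

variable {μ ν : Measure E} {π : Measure (E × E)}

theorem coupling_univ (hμ : μ Set.univ = 1) (hπ : IsCoupling μ ν π) : π Set.univ = 1 := by
  have : (π.map Prod.fst) Set.univ = μ Set.univ := by rw [hπ.1]
  rw [Measure.map_apply measurable_fst MeasurableSet.univ, preimage_univ] at this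
  rw [this, hμ]

theorem coupling_fst {p : E → Prop} (hp : ∀ᵐ x ∂μ, p x) (hπ : IsCoupling μ ν π) :
    ∀ᵐ q ∂π, p q.1 := by
  rw [← hπ.1] at hp
  exact ae_of_ae_map measurable_fst.aemeasurable hp

theorem coupling_snd {p : E → Prop} (hp : ∀ᵐ x ∂ν, p x) (hπ : IsCoupling μ ν π) :
    ∀ᵐ q ∂π, p q.2 := by
  rw [← hπ.2] at hp
  exact ae_of_ae_map measurable_snd.aemeasurable hp

theorem le_dist (x y : E) : y 0 - x 0 ≤ dist x y := by
  rw [EuclideanSpace.dist_eq, Fin.sum_univ_two]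
  apply Real.le_sqrt_of_sq_le
  have : dist (x 0) (y 0) ^ 2 = (y 0 - x 0) ^ 2 := by
    rw [Real.dist_eq, sq_abs]; ring
  rw [this]
  nlinarith [sq_nonneg (dist (x 1) (y 1))]

theorem eq_of_dist (x y : E) (h : dist x y = y 0 - x 0) : x 1 = y 1 := by
  rw [EuclideanSpace.dist_eq, Fin.sum_univ_two] at h
  have h0 : 0 ≤ y 0 - x 0 := by rw [← h]; positivity
  have h1 := (Real.sqrt_eq_iff_mul_self_eq (by positivity) h0).1 h
  have h2 : dist (x 0) (y 0) ^ 2 = (y 0 - x 0) ^ 2 := by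
    rw [Real.dist_eq, sq_abs]; ring
  rw [h2] at h1
  have h3 : dist (x 1) (y 1) ^ 2 = 0 := by nlinarith
  exact dist_eq_zero.1 (pow_eq_zero_iff (two_ne_zero) |>.1 h3)

theorem facts (hμ : μ Set.univ = 1) (hμb : ∀ᵐ x ∂μ, ‖x‖ ≤ 5) (hνb : ∀ᵐ x ∂ν, ‖x‖ ≤ 5)
    (hπ : IsCoupling μ ν π) :
    Integrable (fun p : E × E => dist p.1 p.2) π ∧
    Integrable (fun p : E × E => p.2 0 - p.1 0) π ∧
    ∫⁻ p, edist p.1 p.2 ∂π = ENNReal.ofReal (∫ p, dist p.1 p.2 ∂π) ∧
    ∫ p, (p.2 0 - p.1 0) ∂π = ∫ x, x 0 ∂ν - ∫ x, x 0 ∂μ := by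
  have : IsFiniteMeasure π := ⟨by rw [coupling_univ hμ hπ]; simp⟩
  have b1 := coupling_fst hμb hπ
  have b2 := coupling_snd hνb hπ
  have c1 : Integrable (fun p : E × E => dist p.1 p.2) π := by
    refine Integrable.of_bound (by fun_prop) 10 ?_
    filter_upwards [b1, b2] with p h1 h2
    rw [Real.norm_of_nonneg dist_nonneg, dist_eq_norm]
    exact (norm_sub_le _ _).trans (by linarith)
  have hc : ∀ x : E, ‖x 0‖ ≤ ‖x‖ := fun x => by
    simpa using PiLp.norm_apply_le x 0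
  have c2 : Integrable (fun p : E × E => p.1 0) π := by
    refine Integrable.of_bound
      (((continuous_coord 0).comp continuous_fst).aestronglyMeasurable) 5 ?_
    filter_upwards [b1] with p h1
    exact (hc _).trans h1
  have c3 : Integrable (fun p : E × E => p.2 0) π := by
    refine Integrable.of_bound
      (((continuous_coord 0).comp continuous_snd).aestronglyMeasurable) 5 ?_
    filter_upwards [b2] with p h1
    exact (hc _).trans h1
  refine ⟨c1, c3.sub c2, ?_, ?_⟩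
  · rw [ofReal_integral_eq_lintegral_ofReal c1 (ae_of_all _ fun _ => dist_nonneg)]
    simp_rw [edist_dist]
  · rw [integral_sub c3 c2]
    congr 1
    · rw [← hπ.2, integral_map measurable_snd.aemeasurable
        (continuous_coord 0).aestronglyMeasurable]
    · rw [← hπ.1, integral_map measurable_fst.aemeasurable
        (continuous_coord 0).aestronglyMeasurable]

end coupling

/-- the shear coupling -/
noncomputable def shearPlan (X : Data) : Measure (E × E) :=
  (dens X.f).map fun x => (x, T (fun y => D X.a X.b (X.h y)) x)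

theorem D_nonneg (X : Data) (τ : ℝ) : 0 ≤ D X.a X.b τ := by
  unfold D
  linarith [(X.a_mem (⌊1 / τ⌋₊ - 1)).2, (X.b_mem (⌊1 / τ⌋₊ - 1)).1]

theorem shearPlan_coupling (X : Data) : IsCoupling (dens X.f) (dens X.g) (shearPlan X) := by
  have dm : Measurable fun y => D X.a X.b (X.h y) :=
    (measurable_D X.a X.b).comp X.h_cont.measurable
  have hT := measurePreserving_T _ dm
  have hm : Measurable fun x : E => (x, T (fun y => D X.a X.b (X.h y)) x) :=
    measurable_id.prodMk hT.measurable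
  unfold shearPlan
  constructor
  · rw [Measure.map_map measurable_fst hm]
    exact Measure.map_id
  · rw [Measure.map_map measurable_snd hm]
    ext A hA
    rw [Measure.map_apply (measurable_snd.comp hm) hA]
    unfold dens
    rw [withDensity_apply _ hA, withDensity_apply _ ((measurable_snd.comp hm) hA)]
    have := hT.setLIntegral_comp_preimage hA (f := fun x => ENNReal.ofReal (X.g x))
      (ENNReal.measurable_ofReal.comp X.g_smooth.continuous.measurable)
    rw [← this]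
    simp_rw [← X.shear]
    rfl

theorem dist_T (X : Data) (x : E) : dist x (T (fun y => D X.a X.b (X.h y)) x) =
    T (fun y => D X.a X.b (X.h y)) x 0 - x 0 := by
  rw [EuclideanSpace.dist_eq, Fin.sum_univ_two, T_one, T_zero, dist_self]
  rw [Real.dist_eq, sq_abs]
  have : (x 0 - (x 0 + D X.a X.b (X.h (x 1)))) ^ 2 + 0 ^ 2 = (D X.a X.b (X.h (x 1))) ^ 2 := by
    ring
  rw [this, Real.sqrt_sq (D_nonneg X _)]
  ring

/-- horizontal displacement of optimal plans, and optimality of the shear plan -/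
theorem optimal_facts (X : Data) :
    IsOptimal (dens X.f) (dens X.g) (shearPlan X) ∧
    ∀ π, IsOptimal (dens X.f) (dens X.g) π → ∀ᵐ p ∂π, p.1 1 = p.2 1 := by
  have dm : Measurable fun y => D X.a X.b (X.h y) :=
    (measurable_D X.a X.b).comp X.h_cont.measurable
  have hT := measurePreserving_T _ dm
  have hμ := dens_univ X.f X.f_nonneg X.f_int
  have hμb : ∀ᵐ x ∂dens X.f, ‖x‖ ≤ 5 := by
    filter_upwards [dens_ae X.f X.f_smooth.continuous X.f_nonneg] with x hx using X.f_supp x hx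
  have hνb : ∀ᵐ x ∂dens X.g, ‖x‖ ≤ 5 := by
    filter_upwards [dens_ae X.g X.g_smooth.continuous X.g_nonneg] with x hx using X.g_supp x hx
  obtain ⟨s1, s2, s3, s4⟩ := facts hμ hμb hνb (shearPlan_coupling X)
  have s5 : ∫ p, dist p.1 p.2 ∂(shearPlan X) = ∫ p, (p.2 0 - p.1 0) ∂(shearPlan X) := by
    have hm : Measurable fun x : E => (x, T (fun y => D X.a X.b (X.h y)) x) :=
      measurable_id.prodMk hT.measurable
    unfold shearPlan
    rw [integral_map hm.aemeasurable (f := fun p : E × E => dist p.1 p.2)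
      (continuous_dist.aestronglyMeasurable),
      integral_map hm.aemeasurable (f := fun p : E × E => p.2 0 - p.1 0)
      (((continuous_coord 0).comp continuous_snd).sub
        ((continuous_coord 0).comp continuous_fst)).aestronglyMeasurable]
    exact integral_congr_ae (ae_of_all _ fun x => dist_T X x)
  constructor
  · refine ⟨shearPlan_coupling X, fun π hπ => ?_⟩
    obtain ⟨t1, t2, t3, t4⟩ := facts hμ hμb hνb hπ
    rw [s3, t3, s5, s4, ← t4]
    exact ENNReal.ofReal_le_ofReal (integral_mono t2 t1 fun p => le_dist _ _)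
  · intro π hπ
    obtain ⟨t1, t2, t3, t4⟩ := facts hμ hμb hνb hπ.1
    have h1 := hπ.2 _ (shearPlan_coupling X)
    rw [s3, t3, s5, s4, ← t4] at h1
    have h2 : ∫ p, dist p.1 p.2 ∂π ≤ ∫ p, (p.2 0 - p.1 0) ∂π := by
      by_cases h3 : 0 ≤ ∫ p, (p.2 0 - p.1 0) ∂π
      · exact (ENNReal.ofReal_le_ofReal_iff h3).1 h1
      · exfalso
        apply h3
        rw [t4, ← s4, ← s5]
        exact integral_nonneg fun p => dist_nonneg
    have h3 : ∫ p, (dist p.1 p.2 - (p.2 0 - p.1 0)) ∂π = 0 := by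
      apply le_antisymm
      · rw [integral_sub t1 t2]; linarith
      · exact integral_nonneg fun p => sub_nonneg.2 (le_dist _ _)
    have h4 := (integral_eq_zero_iff_of_nonneg (fun p => sub_nonneg.2 (le_dist _ _))
      (t1.sub t2)).1 h3
    filter_upwards [h4] with p hp
    apply eq_of_dist
    have : dist p.1 p.2 - (p.2 0 - p.1 0) = 0 := hp
    linarith

/-- the slab contained in the support of every optimal plan -/
def slab (X : Data) : Set (E × E) :=
  {p | p.1 1 ∈ {y | y ∈ Ioo (0 : ℝ) 1 ∧ X.h y = 0} ∧ p.1 0 ∈ Icc (0 : ℝ) 1 ∧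
    p.2 0 ∈ Icc (2 : ℝ) 3 ∧ p.2 1 = p.1 1}

theorem dist_lt_of (x y : E) (ε : ℝ) (h0 : |x 0 - y 0| < ε / 2) (h1 : |x 1 - y 1| < ε / 2) :
    dist x y < ε := by
  rw [EuclideanSpace.dist_eq, Fin.sum_univ_two]
  have hε : 0 < ε := by linarith [abs_nonneg (x 0 - y 0)]
  rw [Real.sqrt_lt' hε, Real.dist_eq, Real.dist_eq]
  nlinarith [abs_nonneg (x 0 - y 0), abs_nonneg (x 1 - y 1)]

theorem slab_subset (X : Data) (π : Measure (E × E)) (hπ : IsOptimal (dens X.f) (dens X.g) π) :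
    slab X ⊆ π.support := by
  intro p hp
  obtain ⟨⟨hy, hhy⟩, hs, ht, h21⟩ := hp
  rw [Measure.mem_support_iff_forall]
  intro U hU
  obtain ⟨ε, hε, hUε⟩ := Metric.mem_nhds_iff.1 hU
  obtain ⟨y'', hy1, hy2⟩ := X.h_near (p.1 1) hy (ε / 2) (by linarith)
  obtain ⟨N, hN⟩ := exists_nat_one_div_lt (lt_min hy2 (show (0 : ℝ) < ε / 4 by linarith))
  obtain ⟨k, hkN, hka, hkb⟩ := X.lab _ hs _ ht (ε / 4) (by linarith) N
  have hkN' : 1 / ((k : ℝ) + 1) ≤ 1 / ((N : ℝ) + 1) := by
    apply one_div_le_one_div_of_le (by positivity)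
    have : (N : ℝ) ≤ k := by exact_mod_cast hkN
    linarith
  have hk1 : 1 / ((k : ℝ) + 1) < X.h y'' := lt_of_le_of_lt hkN' (lt_of_lt_of_le hN (min_le_left _ _))
  have hk2 : 1 / ((k : ℝ) + 1) < ε / 4 := lt_of_le_of_lt hkN' (lt_of_lt_of_le hN (min_le_right _ _))
  have hk3 : 1 / ((k : ℝ) + 2) < 1 / ((k : ℝ) + 1) :=
    one_div_lt_one_div_of_lt (by positivity) (by linarith)
  -- intermediate value
  obtain ⟨y', hy'm, hy'⟩ : ∃ y' ∈ uIcc (p.1 1) y'', X.h y' =
      (1 / ((k : ℝ) + 2) + 1 / ((k : ℝ) + 1)) / 2 := by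
    have := intermediate_value_uIcc (X.h_cont.continuousOn (s := uIcc (p.1 1) y''))
    rw [hhy] at this
    have hmem : (1 / ((k : ℝ) + 2) + 1 / ((k : ℝ) + 1)) / 2 ∈ uIcc 0 (X.h y'') := by
      rw [uIcc_of_le hy2.le]
      constructor
      · positivity
      · linarith
    obtain ⟨z, hz, hz'⟩ := this hmem
    exact ⟨z, hz, hz'⟩
  have hy'I : X.h y' ∈ I k := by
    rw [hy']
    constructor <;> linarith
  have hy'd : |y' - p.1 1| < ε / 2 := by
    have := abs_sub_left_of_mem_uIcc hy'm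
    have h2 : |y'' - p.1 1| < ε / 2 := hy1
    linarith
  set W : Set ℝ := {z | X.h z ∈ I k ∧ |z - p.1 1| < ε / 2} with hW
  have hWo : IsOpen W := by
    apply IsOpen.inter
    · exact isOpen_Ioo.preimage X.h_cont
    · exact isOpen_lt (continuous_id.sub continuous_const).abs continuous_const
  set A : Set E := {x | x 1 ∈ W} with hA
  have hAo : IsOpen A := hWo.preimage (continuous_coord 1)
  have hApos : 0 < dens X.f A := by
    refine dens_pos X.f X.f_smooth.continuous X.f_nonneg A hAo !₂[X.a k, y'] ⟨hy'I, hy'd⟩ ?_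
    have h1 : X.h ((!₂[X.a k, y'] : E) 1) ∈ I k := hy'I
    rw [X.f_slot k _ h1]
    show |X.a k - X.a k| < _
    rw [sub_self, abs_zero]
    positivity
  have hcouple := hπ.1
  have e1 := coupling_fst (dens_ae X.f X.f_smooth.continuous X.f_nonneg) hcouple
  have e2 := coupling_snd (dens_ae X.g X.g_smooth.continuous X.g_nonneg) hcouple
  have e3 := (optimal_facts X).2 π hπ
  have hsub : ∀ᵐ q ∂π, q ∈ Prod.fst ⁻¹' A → q ∈ ball p ε := by
    filter_upwards [e1, e2, e3] with q h1 h2 h3 h4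
    obtain ⟨h5, h6⟩ := h4
    have h7 := (X.f_slot k q.1 h5).1 h1
    have h8 : X.h (q.2 1) ∈ I k := by rw [← h3]; exact h5
    have h9 := (X.g_slot k q.2 h8).1 h2
    rw [mem_ball, Prod.dist_eq, max_lt_iff]
    constructor
    · apply dist_lt_of
      · have : q.1 0 - p.1 0 = (q.1 0 - X.a k) + (X.a k - p.1 0) := by ring
        rw [this]
        exact (abs_add_le _ _).trans_lt (by linarith)
      · exact h6
    · apply dist_lt_of
      · have : q.2 0 - p.2 0 = (q.2 0 - X.b k) + (X.b k - p.2 0) := by ring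
        rw [this]
        exact (abs_add_le _ _).trans_lt (by linarith)
      · rw [← h3, h21]
        exact h6
  calc 0 < dens X.f A := hApos
    _ = π (Prod.fst ⁻¹' A) := by
        rw [← hcouple.1, Measure.map_apply measurable_fst hAo.measurableSet]
    _ ≤ π (ball p ε) := measure_mono_ae hsub
    _ ≤ π U := measure_mono hUε

/-- projection to three coordinates -/
noncomputable def P (p : E × E) : Fin 3 → ℝ := ![p.1 1, p.1 0, p.2 0]

theorem lipschitz_P : LipschitzWith 1 P := by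
  refine LipschitzWith.of_dist_le_mul fun p q => ?_
  rw [NNReal.coe_one, one_mul, dist_pi_le_iff dist_nonneg]
  have hc : ∀ (x y : E) (i : Fin 2), dist (x i) (y i) ≤ dist x y := by
    intro x y i
    rw [dist_eq_norm, dist_eq_norm]
    simpa using PiLp.norm_apply_le (x - y) i
  intro i
  rw [Prod.dist_eq]
  fin_cases i
  · exact (hc p.1 q.1 1).trans (le_max_left _ _)
  · exact (hc p.1 q.1 0).trans (le_max_left _ _)
  · exact (hc p.2 q.2 0).trans (le_max_right _ _)

theorem three_le_dimH (X : Data) : 3 ≤ dimH (slab X) := by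
  refine le_trans ?_ (lipschitz_P.dimH_image_le (slab X))
  set K : Set ℝ := {y | y ∈ Ioo (0 : ℝ) 1 ∧ X.h y = 0} with hK
  have himg : Set.pi Set.univ ![K, Icc (0 : ℝ) 1, Icc (2 : ℝ) 3] ⊆ P '' slab X := by
    intro v hv
    have h0 := hv 0 (mem_univ _)
    have h1 := hv 1 (mem_univ _)
    have h2 := hv 2 (mem_univ _)
    refine ⟨(!₂[v 1, v 0], !₂[v 2, v 0]), ⟨h0, h1, h2, rfl⟩, ?_⟩
    funext i
    fin_cases i <;> rfl
  refine le_trans ?_ (dimH_mono himg)
  have h3 : μH[((3 : ℝ≥0) : ℝ)] (Set.pi Set.univ ![K, Icc (0 : ℝ) 1, Icc (2 : ℝ) 3]) ≠ 0 := by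
    have h4 : (μH[((3 : ℝ≥0) : ℝ)] : Measure (Fin 3 → ℝ)) = volume := by
      have := hausdorffMeasure_pi_real (ι := Fin 3)
      rw [← this]
      norm_num
    rw [h4, volume_pi_pi, Fin.prod_univ_three]
    have hKp : volume K ≠ 0 := X.h_K.ne'
    simp only [Matrix.cons_val_zero, Matrix.cons_val_one, Matrix.cons_val_two, Matrix.head_cons,
      Matrix.tail_cons, Real.volume_Icc]
    norm_num
    exact hKp
  exact_mod_cast le_dimH_of_hausdorffMeasure_ne_zero h3

/-- There are `C^∞` compactly supported probability densities `f, g` on the plane such that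
optimal couplings exist, and the support of every optimal coupling for the cost `|x - y|` has
Hausdorff dimension at least `3`. -/
theorem result : ∃ f g : E → ℝ, ContDiff ℝ ∞ f ∧ ContDiff ℝ ∞ g ∧
    HasCompactSupport f ∧ HasCompactSupport g ∧ (∀ x, 0 ≤ f x) ∧ (∀ x, 0 ≤ g x) ∧
    ∫ x, f x = 1 ∧ ∫ x, g x = 1 ∧
    (∃ π, IsOptimal (volume.withDensity fun x => ENNReal.ofReal (f x))
      (volume.withDensity fun x => ENNReal.ofReal (g x)) π) ∧
    ∀ π, IsOptimal (volume.withDensity fun x => ENNReal.ofReal (f x))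
      (volume.withDensity fun x => ENNReal.ofReal (g x)) π → 3 ≤ dimH π.support := by
  obtain ⟨X⟩ := exists_data
  have hcs : ∀ u : E → ℝ, (∀ x, u x ≠ 0 → ‖x‖ ≤ 5) → HasCompactSupport u := by
    intro u hu
    refine HasCompactSupport.of_support_subset_isCompact (isCompact_closedBall (0 : E) 5) ?_
    intro x hx
    rw [mem_closedBall_zero_iff]
    exact hu x hx
  refine ⟨X.f, X.g, X.f_smooth, X.g_smooth, hcs _ X.f_supp, hcs _ X.g_supp, X.f_nonneg,
    X.g_nonneg, X.f_int, X.g_int, ⟨_, (optimal_facts X).1⟩, fun π hπ => ?_⟩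
  exact (three_le_dimH X).trans (dimH_mono (slab_subset X π hπ))

end Pool.Agent.Results.MP_e338b6_an.PlansThreeDim
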